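import Mathlib
import Pool.Agent.Helper55.JS.Walks

/-! JS-14: first and last term -/

set_option autoImplicit false
set_option linter.unusedSectionVars false
set_option linter.unusedVariables false

namespace Pool.Agent.Helper55.JS

open Finset

variable {V : Type} [Fintype V] [DecidableEq V] {G : SimpleGraph V}

namespace P14

variable {s : ℕ} {j : Fin s → ℕ} {c : Fin s}

theorem mem_oth {o : Oth V j c} : o ∈ oth G j c ↔ IsOth G j c o := by
  unfold oth
  simp

theorem mem_cps {f : V × Legs V j} : f ∈ cps G j ↔ IsCopy G j f.1 f.2 := by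
  unfold cps
  simp

theorem mem_oS {o : Oth V j c} {v : V} :
    v ∈ oS o ↔ ∃ (b : {b : Fin s // b ≠ c}) (i : Fin (j b)), o.2 b i.succ = v := by
  unfold oS
  simp

theorem mem_Pc {O Ξ : Type} [Fintype O] [Fintype Ξ] [DecidableEq Ξ] {Os : Finset O} {U : O → V}
    {ξ : O → Ξ} {S : O → Finset V} {i : ℕ} {x : Ξ} {v : V} {q : O × (Fin (i + 1) → V)} :
    q ∈ Pc G Os U ξ S i x v ↔ q.1 ∈ Os ∧ ξ q.1 = x ∧ IsWalk G q.2 ∧ q.2 0 = U q.1 ∧
    q.2 (Fin.last i) = v ∧ Function.Injective q.2 ∧ ∀ r, q.2 r ∉ S q.1 := by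
  unfold Pc
  simp

/-- the objects with centre `v` and roots `x` -/
theorem Iv_zero_le (x : {b : Fin s // b ≠ c} → V) (v : V) :
    Iv G (oth G j c) (fun o => o.1) oX oS 0 x v ≤
      ∏ b : {b : Fin s // b ≠ c}, W G (j b) v (x b) := by
  classical
  have h1 : ∏ b : {b : Fin s // b ≠ c}, W G (j b) v (x b) =
      ((Fintype.piFinset fun b : {b : Fin s // b ≠ c} => wk G (j b) v (x b)).card : ℝ) := by
    rw [Fintype.card_piFinset, Nat.cast_prod]
    exact prod_congr rfl fun b _ => (card_wk _ _ _).symm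
  rw [h1]
  unfold Iv
  norm_cast
  refine card_le_card_of_injOn (fun q => q.1.2) ?_ ?_
  · rintro ⟨o, q⟩ hq
    rw [mem_coe] at hq
    rw [mem_Pc] at hq
    obtain ⟨h2, h3, h4, h5, h6, h7, h8⟩ := hq
    dsimp only at h2 h3 h4 h5 h6 h7 h8
    rw [mem_oth] at h2
    rw [mem_coe, Fintype.mem_piFinset]
    intro b
    rw [mem_wk]
    refine ⟨h2.walk b, ?_, ?_⟩
    · dsimp only
      rw [h2.start b, ← h5, ← h6]
      rfl
    · exact congrFun h3 b
  · rintro ⟨o, q⟩ hq ⟨o', q'⟩ hq' h
    rw [mem_coe] at hq hq'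
    rw [mem_Pc] at hq hq'
    obtain ⟨h2, h3, h4, h5, h6, h7, h8⟩ := hq
    obtain ⟨h2', h3', h4', h5', h6', h7', h8'⟩ := hq'
    dsimp only at h2 h3 h4 h5 h6 h7 h8 h2' h3' h4' h5' h6' h7' h8' h
    have e1 : q = q' := by
      funext i
      have hi : i = Fin.last 0 := Fin.ext (by simp)
      rw [hi, h6, h6']
    have e2 : o.1 = o'.1 := by rw [← h5, ← h5', e1]
    rw [e1, Prod.ext e2 h]

end P14

open P14

/-- JS-14a -/
theorem Qc_zero {s : ℕ} {j : Fin s → ℕ} {T D : ℝ} (hT : 1 ≤ T) (hD : 0 < D) (c : Fin s)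
    (hW : ∀ b, ∀ y, W G (2 * j b) y y ≤ T * D ^ (2 * j b)) :
    Qc G j c 0 ≤ Fintype.card V * T ^ s * D ^ (2 * ((∑ b, j b) - j c)) := by
  classical
  unfold Qc Qv
  rw [sum_comm]
  have h1 : ∀ v : V, ∑ x : {b : Fin s // b ≠ c} → V,
      Iv G (oth G j c) (fun o => o.1) oX oS 0 x v ^ 2 ≤ T ^ s * D ^ (2 * ((∑ b, j b) - j c)) := by
    intro v
    calc ∑ x : {b : Fin s // b ≠ c} → V, Iv G (oth G j c) (fun o => o.1) oX oS 0 x v ^ 2
        ≤ ∑ x : {b : Fin s // b ≠ c} → V, ∏ b : {b : Fin s // b ≠ c}, W G (j b) v (x b) ^ 2 := by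
          refine sum_le_sum fun x _ => ?_
          rw [prod_pow]
          refine pow_le_pow_left₀ ?_ (Iv_zero_le x v) 2
          unfold Iv
          exact Nat.cast_nonneg _
      _ = ∏ b : {b : Fin s // b ≠ c}, ∑ y, W G (j b) v y ^ 2 := by
          rw [prod_univ_sum, Fintype.piFinset_univ]
      _ = ∏ b : {b : Fin s // b ≠ c}, W G (2 * j b) v v :=
          prod_congr rfl fun b _ => (W_self_eq _ _).symm
      _ ≤ ∏ b : {b : Fin s // b ≠ c}, (T * D ^ (2 * j b)) :=
          prod_le_prod (fun b _ => W_nonneg _ _ _) fun b _ => hW b v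
      _ = T ^ (s - 1) * D ^ (2 * ((∑ b, j b) - j c)) := by
          rw [prod_mul_distrib, prod_const, card_univ]
          have e1 : Fintype.card {b : Fin s // b ≠ c} = s - 1 := by
            rw [Fintype.card_subtype_compl, Fintype.card_fin, Fintype.card_subtype_eq]
          have e2 : ∑ b : {b : Fin s // b ≠ c}, 2 * j b = 2 * ((∑ b, j b) - j c) := by
            rw [← mul_sum]
            congr 1
            have e3 : ∑ b : {b : Fin s // b ≠ c}, j b + j c = ∑ b, j b := by
              rw [← sum_subtype (univ.erase c) (fun b => by simp) j]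
              exact sum_erase_add _ _ (mem_univ c)
            rw [← e3, Nat.add_sub_cancel]
          rw [e1, prod_pow_eq_pow_sum, e2]
      _ ≤ T ^ s * D ^ (2 * ((∑ b, j b) - j c)) := by
          refine mul_le_mul_of_nonneg_right (pow_le_pow_right₀ hT (Nat.sub_le _ _)) ?_
          positivity
  calc ∑ v : V, ∑ x : {b : Fin s // b ≠ c} → V,
      Iv G (oth G j c) (fun o => o.1) oX oS 0 x v ^ 2
      ≤ ∑ v : V, T ^ s * D ^ (2 * ((∑ b, j b) - j c)) := sum_le_sum fun v _ => h1 v
    _ = Fintype.card V * T ^ s * D ^ (2 * ((∑ b, j b) - j c)) := by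
        rw [sum_const, card_univ, nsmul_eq_mul, mul_assoc]

/-- the copies with roots `X` -/
theorem P14.IX_eq {s : ℕ} {j : Fin s → ℕ} (c : Fin s) (X : Fin s → V) :
    IX G j X = Iv G (oth G j c) (fun o => o.1) oX oS (j c) (fun b => X b) (X c) := by
  classical
  unfold IX Iv
  norm_cast
  refine card_bij' (fun f _ => ((f.1, fun b => f.2 b), f.2 c))
    (fun q _ => (q.1.1, (Equiv.piSplitAt c (fun b => Fin (j b + 1) → V)).symm (q.2, q.1.2)))
    ?_ ?_ ?_ ?_
  · intro f hf
    rw [mem_filter, mem_cps] at hf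
    obtain ⟨h1, h2⟩ := hf
    rw [mem_Pc, mem_oth]
    refine ⟨⟨fun b => h1.start b, fun b => h1.walk b, ?_⟩, ?_, h1.walk c, h1.start c, h2 c, ?_, ?_⟩
    · intro b b' i i' hi h3
      obtain ⟨h4, h5⟩ := h1.inj _ _ i i' hi h3
      exact ⟨Subtype.ext h4, h5⟩
    · funext b
      exact h2 b
    · intro a b hab
      by_cases ha : a = 0
      · by_cases hb : b = 0
        · rw [ha, hb]
        · exact Fin.ext (h1.inj c c b a hb hab.symm).2.symm
      · exact Fin.ext (h1.inj c c a b ha hab).2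
    · intro r hr
      rw [mem_oS] at hr
      obtain ⟨b, i, hi⟩ := hr
      exact b.2 (h1.inj b c i.succ r (Fin.succ_ne_zero _) hi).1
  · rintro ⟨o, q⟩ hq
    rw [mem_Pc, mem_oth] at hq
    obtain ⟨h2, h3, h4, h5, h6, h7, h8⟩ := hq
    dsimp only at h2 h3 h4 h5 h6 h7 h8
    rw [mem_filter, mem_cps]
    have hc : (Equiv.piSplitAt c (fun b => Fin (j b + 1) → V)).symm (q, o.2) c = q := by
      simp [Equiv.piSplitAt]
    have hb : ∀ (b : Fin s) (h : b ≠ c),
        (Equiv.piSplitAt c (fun b => Fin (j b + 1) → V)).symm (q, o.2) b = o.2 ⟨b, h⟩ := by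
      intro b h
      simp [Equiv.piSplitAt, h]
    dsimp only
    set P := (Equiv.piSplitAt c (fun b => Fin (j b + 1) → V)).symm (q, o.2) with hP
    have hkey : ∀ (b : Fin s) (h : b ≠ c) (i : Fin (j b + 1)) (i' : Fin (j c + 1)), i ≠ 0 →
        o.2 ⟨b, h⟩ i ≠ q i' := by
      intro b h i i' hi he
      obtain ⟨k, rfl⟩ := Fin.exists_succ_eq.2 hi
      apply h8 i'
      rw [mem_oS]
      exact ⟨⟨b, h⟩, k, he⟩
    refine ⟨⟨?_, ?_, ?_⟩, ?_⟩
    · intro b
      by_cases h : b = c
      · subst h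
        rw [hc, h5]
      · rw [hb b h]
        exact h2.start ⟨b, h⟩
    · intro b
      by_cases h : b = c
      · subst h
        rw [hc]
        exact h4
      · rw [hb b h]
        exact h2.walk ⟨b, h⟩
    · intro b b' i i' hi he
      by_cases h : b = c
      · subst h
        by_cases h' : b' = b
        · subst h'
          rw [hc] at he
          exact ⟨rfl, congrArg Fin.val (h7 he)⟩
        · exfalso
          rw [hc, hb b' h'] at he
          by_cases hi' : i' = 0
          · subst hi'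
            rw [h2.start ⟨b', h'⟩, ← h5] at he
            exact hi (h7 he)
          · exact hkey b' h' i' i hi' he.symm
      · by_cases h' : b' = c
        · subst h'
          rw [hc, hb b h] at he
          exact absurd he (hkey b h i i' hi)
        · rw [hb b h, hb b' h'] at he
          obtain ⟨h9, h10⟩ := h2.inj ⟨b, h⟩ ⟨b', h'⟩ i i' hi he
          exact ⟨congrArg Subtype.val h9, h10⟩
    · intro b
      by_cases h : b = c
      · subst h
        rw [hc, h6]
      · rw [hb b h]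
        exact congrFun h3 ⟨b, h⟩
  · intro f hf
    refine Prod.ext rfl ?_
    exact (Equiv.piSplitAt c (fun b => Fin (j b + 1) → V)).symm_apply_apply f.2
  · rintro ⟨o, q⟩ hq
    have h := (Equiv.piSplitAt c (fun b => Fin (j b + 1) → V)).apply_symm_apply (q, o.2)
    have h1 := congrArg Prod.fst h
    have h2 := congrArg Prod.snd h
    dsimp only
    refine Prod.ext (Prod.ext rfl ?_) ?_
    · exact h2
    · exact h1

/-- JS-14b -/
theorem Qc_last {s : ℕ} {j : Fin s → ℕ} (hj : ∀ c, 1 ≤ j c) (c : Fin s) :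
    Qc G j c (j c) = ∑ X, IX G j X ^ 2 := by
  classical
  unfold Qc Qv
  rw [← (Equiv.piSplitAt c (fun _ : Fin s => V)).symm.sum_comp (fun X => IX G j X ^ 2),
    Fintype.sum_prod_type, sum_comm]
  refine sum_congr rfl fun v _ => sum_congr rfl fun x _ => ?_
  rw [IX_eq c]
  have h := (Equiv.piSplitAt c (fun _ : Fin s => V)).apply_symm_apply (v, x)
  have h1 := congrArg Prod.fst h
  have h2 := congrArg Prod.snd h
  have h3 : ((Equiv.piSplitAt c (fun _ : Fin s => V)).symm (v, x)) c = v := h1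
  have h4 : (fun b : {b : Fin s // b ≠ c} =>
    ((Equiv.piSplitAt c (fun _ : Fin s => V)).symm (v, x)) b) = x := h2
  rw [h3, h4]

/-- JS-14c -/
theorem card_sq_le {s : ℕ} {j : Fin s → ℕ} :
    ((cps G j).card : ℝ) ^ 2 ≤ (Fintype.card V : ℝ) ^ s * ∑ X, IX G j X ^ 2 := by
  classical
  have h1 : ((cps G j).card : ℝ) = ∑ X, IX G j X := by
    have h2 := card_eq_sum_card_fiberwise (s := cps G j) (t := (univ : Finset (Fin s → V)))
      (f := fun f c => f.2 c (Fin.last (j c))) (fun _ _ => mem_coe.2 (mem_univ _))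
    rw [h2, Nat.cast_sum]
    refine sum_congr rfl fun X _ => ?_
    unfold IX
    congr 2
    ext f
    simp only [mem_filter, funext_iff]
  rw [h1]
  have h3 := sq_sum_le_card_mul_sum_sq (s := (univ : Finset (Fin s → V))) (f := fun X => IX G j X)
  refine h3.trans (le_of_eq ?_)
  rw [card_univ, Fintype.card_fun, Fintype.card_fin, Nat.cast_pow]

end Pool.Agent.Helper55.JS
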